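import Pool.Agent.N482.RD.Space
import Pool.Agent.N482.RD.NoLusin
import Pool.Agent.Helper732.HN.ForceCH

set_option autoImplicit false

/-!
# A first countable, locally countable Dowker space of size `ℵ₁` without Lusin sets

In the random model over a model of diamond there is a first countable, locally countable Dowker
space of size `ℵ₁` (moreover locally compact and `σ`-discrete), but there is no Lusin set.

* Diamond can be forced (part 1).
* Under diamond there is a ladder system of finite sets `F α j ⊆ α` which guesses all requirements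
  on finite sets of countable ordinals.  In an extension by the measure algebra of `{0,1}^X` a name
  `H` for an unbounded subset of `ω₁` and a condition `q` define the requirement
  `μ (q \ ⋃ β ∈ S, [β ∈ H]) < 2 ^ (-j)`, hence by the Borel-Cantelli lemma in the extension any two
  unbounded sets are met by almost all of the finite sets at some `α` (part 2, `Guess`).
  If `X` has more than `ℵ₁` elements then for any `ℵ₁` reals of the extension a new random real
  differs from each of them in almost all of the blocks of lengths `0, 1, 2, ...` (part 2, `Evd`).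
* A ladder system with `Guess` gives a Dowker space on `ω₁ × ω`, in which the point `(α, n)` is a
  limit of the sets `F α j × {m}`, `m < n`, for the `j` in the `n`-th class of a partition of the
  natural numbers (part 3).
* `Evd` implies that there are no Lusin sets (part 4).
-/

namespace Pool.Agent.Results.MP_cba831_lc.NoLusinSetNeeded

open Set Cardinal
open Pool.Agent.Helper292.SP (fnot fand fall fimp fiff fex fground meets IsFun)
open Pool.Agent.R582.Rand (MAlg coins)

/-- The well-ordered set of the countable ordinals (order type `ω₁`). -/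
abbrev Om : Type := (ℵ₁ : Cardinal.{0}).ord.ToType

/-! ### Diamond -/

/-- In the extension there is no function from the natural numbers onto the ground model `ω₁`;
so the ground model `ω₁` is still the first uncountable cardinal. -/
def OmegaOnePreserved (P : Type) [Preorder P] : Set P :=
  fnot (fex fun R : ℕ → Om → Set P => fand (IsFun R) (fall fun a : Om => fex fun n : ℕ =>
    meets (R n a)))

/-- The set named by `C` is closed and unbounded in `ω₁`. -/
def IsClubName {P : Type} [Preorder P] (C : Om → Set P) : Set P :=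
  fand (fall fun a => fex fun b => fand (fground (a < b)) (meets (C b)))
    (fall fun a => fimp
      (fand (fground (∃ b, b < a))
        (fall fun b => fall fun _ : b < a => fex fun c => fand (fground (b < c ∧ c < a))
          (meets (C c))))
      (meets (C a)))

/-- Diamond holds in the extension: there is a sequence of sets `A a ⊆ ω₁`, such that for every
`S ⊆ ω₁` and every closed unbounded `C ⊆ ω₁` there is `a ∈ C` with `S ∩ a = A a ∩ a`. -/
def DiamondHolds (P : Type) [Preorder P] : Set P :=
  fex fun A : Om → Om → Set P => fall fun S : Om → Set P => fall fun C : Om → Set P =>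
    fimp (IsClubName C) (fex fun a : Om => fand (meets (C a))
      (fall fun b : Om => fall fun _ : b < a => fiff (meets (S b)) (meets (A a b))))

/-- `C` is a closed unbounded subset of `ω₁`. -/
def IsClub (C : Om → Prop) : Prop :=
  (∀ a : Om, ∃ b : Om, a < b ∧ C b) ∧
    ∀ a : Om, (∃ b, b < a) → (∀ b : Om, b < a → ∃ c : Om, (b < c ∧ c < a) ∧ C c) → C a

/-- Diamond. -/
def Diamond : Prop :=
  ∃ A : Om → Om → Prop, ∀ S : Om → Prop, ∀ C : Om → Prop,
    IsClub C → ∃ a : Om, C a ∧ ∀ b : Om, b < a → (S b ↔ A a b)

/-! ### The guessing principle -/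

/-- A ladder system of finite sets: for every countable ordinal `α` a nondecreasing sequence of cut
points `g α j` and finite sets `F α j ⊆ α` between `g α j` and `g α (j + 1)`, such that the cut
points of the nonempty sets converge to `α`. -/
structure Ladder (g : Om → ℕ → Om) (F : Om → ℕ → Finset Om) : Prop where
  mem : ∀ α j, ∀ β ∈ F α j, g α j < β ∧ β ≤ g α (j + 1) ∧ β < α
  mono : ∀ α, Monotone (g α)
  lim : ∀ α γ, γ < α → ∃ k, ∀ j, k ≤ j → (F α j).Nonempty → γ < g α j

/-- an unbounded set of countable ordinals -/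
def Unb (H : Om → Prop) : Prop := ∀ γ : Om, ∃ β : Om, γ < β ∧ H β

/-- The guessing property: for any two unbounded sets of countable ordinals there is `α` such that
all but finitely many of the finite sets at `α` meet both of them. -/
def Guess (F : Om → ℕ → Finset Om) : Prop :=
  ∀ H K : Om → Prop, Unb H → Unb K → ∃ α : Om, ∃ i : ℕ, ∀ j : ℕ, i ≤ j →
    (∃ β : Om, β ∈ F α j ∧ H β) ∧ (∃ β : Om, β ∈ F α j ∧ K β)

/-- The set named by `H` is unbounded in `ω₁`. -/
def UnbName {P : Type} [Preorder P] (H : Om → Set P) : Set P :=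
  fall fun γ : Om => fex fun β : Om => fand (fground (γ < β)) (meets (H β))

/-- `Guess F` holds in the extension (`F` is a ladder system of the ground model). -/
def GuessHolds (P : Type) [Preorder P] (F : Om → ℕ → Finset Om) : Set P :=
  fall fun H : Om → Set P => fall fun K : Om → Set P => fimp (fand (UnbName H) (UnbName K))
    (fex fun α : Om => fex fun i : ℕ => fall fun j : ℕ => fall fun _ : i ≤ j =>
      fand (fex fun β : Om => fand (fground (β ∈ F α j)) (meets (H β)))
        (fex fun β : Om => fand (fground (β ∈ F α j)) (meets (K β))))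

/-! ### Eventually different blocks -/

/-- For every family of `ℵ₁` many sequences of blocks of bits (of lengths `0, 1, 2, ...`)
there is one such sequence which differs from each of them in almost all blocks. -/
def Evd : Prop :=
  ∀ x : Om → ℕ → ℕ → Prop, ∃ z : ℕ → ℕ → Prop, ∀ α : Om, ∃ m : ℕ, ∀ k : ℕ, m ≤ k →
    ∃ i : ℕ, i < k ∧ ¬ (x α k i ↔ z k i)

/-- `Evd` holds in the extension. -/
def EvdHolds (P : Type) [Preorder P] : Set P :=
  fall fun x : Om → ℕ → ℕ → Set P => fex fun z : ℕ → ℕ → Set P => fall fun α : Om =>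
    fex fun m : ℕ => fall fun k : ℕ => fall fun _ : m ≤ k => fex fun i : ℕ =>
      fand (fground (i < k)) (fnot (fiff (meets (x α k i)) (meets (z k i))))

/-! ### Dowker spaces and Lusin sets -/

/-- Countable paracompactness: every countable open cover has a locally finite open refinement. -/
def CountablyParacompact (X : Type) [TopologicalSpace X] : Prop :=
  ∀ U : ℕ → Set X, (∀ n, IsOpen (U n)) → (⋃ n, U n) = Set.univ →
    ∃ (ι : Type) (V : ι → Set X), (∀ i, IsOpen (V i)) ∧ (⋃ i, V i) = Set.univ ∧
      LocallyFinite V ∧ ∀ i, ∃ n, V i ⊆ U n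

/-- A Lusin set of reals. -/
def Lusin (L : Set ℝ) : Prop := ¬ L.Countable ∧ ∀ M : Set ℝ, IsMeagre M → (L ∩ M).Countable

/-- **First countable, locally countable Dowker spaces of size `ℵ₁` do not need Lusin sets.** -/
theorem result :
    -- (1) diamond can be forced
    (∃ (P : Type) (_ : Preorder P), Nonempty P ∧
      ∀ p : P, p ∈ OmegaOnePreserved P ∧ p ∈ DiamondHolds P) ∧
    -- (2) the random model over a model of diamond
    (Diamond → ∃ (g : Om → ℕ → Om) (F : Om → ℕ → Finset Om), Ladder g F ∧
      ∀ X : Type, ℵ₁ < #X → Nonempty (MAlg (coins X)) ∧ ∀ p : MAlg (coins X),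
        p ∈ OmegaOnePreserved (MAlg (coins X)) ∧ p ∈ GuessHolds (MAlg (coins X)) F ∧
          p ∈ EvdHolds (MAlg (coins X))) ∧
    -- (3) the Dowker space
    (∀ (g : Om → ℕ → Om) (F : Om → ℕ → Finset Om), Ladder g F → Guess F →
      ∃ (X : Type) (_ : TopologicalSpace X), #X = ℵ₁ ∧ T2Space X ∧ NormalSpace X ∧
        ¬ CountablyParacompact X ∧ FirstCountableTopology X ∧
        (∀ x : X, ∃ U : Set X, IsOpen U ∧ x ∈ U ∧ U.Countable) ∧ LocallyCompactSpace X ∧
        ∃ L : ℕ → Set X, (∀ n, DiscreteTopology (L n)) ∧ (⋃ n, L n) = Set.univ) ∧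
    -- (4) no Lusin sets
    (Evd → ¬ ∃ L : Set ℝ, Lusin L) := by
  refine ⟨?_, ?_, ?_, ?_⟩
  · obtain ⟨P, hP, hne, h⟩ := Pool.Agent.Helper732.HN.ForceCH.exists_forcing
    exact ⟨P, hP, hne, fun p => ⟨(h p).1, (h p).2.1⟩⟩
  · intro hd
    obtain ⟨g, F, hL, hC⟩ := Pool.Agent.N482.RD.exists_cap hd
    refine ⟨g, F, ⟨hL.mem, hL.mono, hL.lim⟩, fun X hX => ⟨⟨⟨Set.univ, MeasurableSet.univ, by simp⟩⟩,
      fun p => ⟨?_, ?_, ?_⟩⟩⟩
    · have h1 : #ℕ < #Om := by
        have h4 : #Om = ℵ₁ := by simp
        rw [h4, Cardinal.mk_nat]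
        exact Cardinal.aleph0_lt_aleph_one
      exact Pool.Agent.R582.Rand.ccc.noOnto (X := ℕ) (Y := Om) (by simp) h1 p
    · exact Pool.Agent.N482.RD.guess_forced hC p
    · exact Pool.Agent.N482.RD.evd_forced hX p
  · intro g F hL hG
    have hL' : Pool.Agent.N482.RD.Ladder g F := ⟨hL.mem, hL.mono, hL.lim⟩
    have hG' : Pool.Agent.N482.RD.Guess F := hG
    let t := Pool.Agent.N482.RD.topo g F
    obtain ⟨h1, h2⟩ := Pool.Agent.N482.RD.dowker hL' hG'
    refine ⟨Om × ℕ, t, ?_, Pool.Agent.N482.RD.t2 hL', h1, h2,
      Pool.Agent.N482.RD.firstCountable hL', fun x => ⟨Pool.Agent.N482.RD.N g F x 0,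
        Pool.Agent.N482.RD.isOpen_N hL' x 0, Pool.Agent.N482.RD.mem_N x 0,
        Pool.Agent.N482.RD.countable_N hL' x 0⟩, Pool.Agent.N482.RD.locallyCompact hL',
      fun n => {x | x.2 = n}, fun n => Pool.Agent.N482.RD.level_discrete hL' n, ?_⟩
    · have h4 : #Om = ℵ₁ := by simp
      rw [Cardinal.mk_prod, Cardinal.lift_id, Cardinal.lift_id, h4, Cardinal.mk_nat]
      exact Cardinal.mul_eq_left Cardinal.aleph0_lt_aleph_one.le
        Cardinal.aleph0_lt_aleph_one.le Cardinal.aleph0_ne_zero
    · ext x
      simp
  · exact Pool.Agent.N482.RD.no_lusin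

end Pool.Agent.Results.MP_cba831_lc.NoLusinSetNeeded
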